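import Pool.Agent.H365.TF.Stm

/-!
Task TF-NT2 (helper997): no torsion of order prime to `ℓ` in a congruence subgroup of `GL_n(ℤ[H])`.
-/

set_option autoImplicit false

namespace Pool.Agent.H365.TF

namespace NT2

/-- the beginning of the binomial expansion -/
lemma binom {R : Type*} [Ring R] (d : R) (r : ℕ) :
    ∃ z : R, (1 + d) ^ r = 1 + (r : ℕ) • d + d * d * z := by
  induction r with
  | zero => exact ⟨0, by rw [pow_zero, zero_smul, mul_zero, add_zero, add_zero]⟩
  | succ r ih =>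
    obtain ⟨z, hz⟩ := ih
    refine ⟨z + z * d + (r : ℕ) • 1, ?_⟩
    rw [pow_succ, hz, add_smul, one_smul]
    simp only [mul_add, add_mul, mul_one, one_mul, smul_mul_assoc, mul_smul_comm, mul_assoc]
    abel

/-- a unipotent element of finite order prime to `ℓ` -/
lemma abs {R : Type*} [Ring R] (ℓ r : ℕ) (hr : r.Coprime ℓ) (htf : ∀ x : R, ℓ • x = 0 → x = 0)
    (hsep : ∀ x : R, (∀ k : ℕ, ∃ y : R, x = ℓ ^ k • y) → x = 0) (d : R) (hd : (1 + d) ^ r = 1)
    (h1 : ∃ y : R, d = ℓ • y) : d = 0 := by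
  have htf' : ∀ (k : ℕ) (x : R), ℓ ^ k • x = 0 → x = 0 := by
    intro k
    induction k with
    | zero => intro x hx; rwa [pow_zero, one_smul] at hx
    | succ k ih =>
      intro x hx
      rw [pow_succ, mul_smul] at hx
      exact htf x (ih _ hx)
  obtain ⟨z, hz⟩ := binom d r
  rw [hd] at hz
  have hz' : (r : ℕ) • d + d * d * z = 0 := by
    have h2 : (1 : R) + ((r : ℕ) • d + d * d * z) = 1 + 0 := by
      rw [← add_assoc, ← hz, add_zero]
    exact add_left_cancel h2
  refine hsep d fun k => ?_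
  induction k with
  | zero => exact ⟨d, by rw [pow_zero, one_smul]⟩
  | succ k ih =>
    rcases Nat.eq_zero_or_pos k with hk | hk
    · obtain ⟨y, hy⟩ := h1
      exact ⟨y, by rw [hk, zero_add, pow_one]; exact hy⟩
    · obtain ⟨y, hy⟩ := ih
      have h3 : (r : ℕ) • y + ℓ ^ k • (y * y * z) = 0 := by
        apply htf' k
        rw [smul_add, ← hz']
        conv_rhs => rw [hy]
        rw [smul_comm (ℓ ^ k) r y, smul_mul_assoc, mul_smul_comm, smul_mul_assoc, smul_mul_assoc]
      obtain ⟨j, rfl⟩ : ∃ j, k = j + 1 := ⟨k - 1, by omega⟩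
      obtain ⟨a, b, hab⟩ : ∃ a b : ℤ, a * r + b * ℓ = 1 := by
        have h4 : IsCoprime (r : ℤ) (ℓ : ℤ) := Nat.isCoprime_iff_coprime.2 hr
        exact h4
      have h5 : (r : ℤ) • y = -((ℓ : ℤ) ^ (j + 1) • (y * y * z)) := by
        rw [eq_neg_iff_add_eq_zero, ← h3, natCast_zsmul]
        congr 1
        rw [← Nat.cast_pow, natCast_zsmul]
      have h6 : y = (ℓ : ℤ) • (b • y - a • ((ℓ : ℤ) ^ j • (y * y * z))) := by
        calc y = (a * r + b * ℓ) • y := by rw [hab, one_smul]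
          _ = a • ((r : ℤ) • y) + (ℓ : ℤ) • (b • y) := by
              rw [add_smul, mul_smul, mul_comm b, mul_smul]
          _ = (ℓ : ℤ) • (b • y - a • ((ℓ : ℤ) ^ j • (y * y * z))) := by
              rw [h5, smul_sub, smul_neg, ← smul_comm a (ℓ : ℤ), pow_succ', mul_smul]
              abel
      refine ⟨b • y - a • ((ℓ : ℤ) ^ j • (y * y * z)), ?_⟩
      rw [natCast_zsmul] at h6
      rw [pow_succ ℓ (j + 1), mul_smul, ← h6]
      exact hy

lemma dvd_coeff (ℓ : ℕ) {H : Type} [Group H] (M : Subgroup H) [M.Normal]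
    (x : MonoidAlgebra ℤ H)
    (hinj : Set.InjOn (QuotientGroup.mk' M) (x.coeff.support : Set H)) (hx : red ℓ M x = 0) (h : H) :
    (ℓ : ℤ) ∣ x.coeff h := by
  by_cases hh : h ∈ x.coeff.support
  · have h0 : ∀ t : H, (MonoidAlgebra.mapRingHom H (Int.castRingHom (ZMod ℓ)) x).coeff t =
        ((x.coeff t : ℤ) : ZMod ℓ) := fun t => MonoidAlgebra.coeff_mapRingHom _ _ _
    have hsub : (((MonoidAlgebra.mapRingHom H (Int.castRingHom (ZMod ℓ)) x).coeff.support : Set H)) ⊆
        (x.coeff.support : Set H) := by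
      intro t ht
      rw [Finset.mem_coe, Finsupp.mem_support_iff] at ht ⊢
      intro h1
      apply ht
      rw [h0, h1, Int.cast_zero]
    have h2 := Finsupp.mapDomain_apply' (x.coeff.support : Set H) (f := QuotientGroup.mk' M)
      (MonoidAlgebra.mapRingHom H (Int.castRingHom (ZMod ℓ)) x).coeff hsub hinj hh
    have h3 : Finsupp.mapDomain (QuotientGroup.mk' M)
        (MonoidAlgebra.mapRingHom H (Int.castRingHom (ZMod ℓ)) x).coeff = (red ℓ M x).coeff := rfl
    rw [h3, hx, h0] at h2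
    have h4 : ((x.coeff h : ℤ) : ZMod ℓ) = 0 := h2.symm
    exact (ZMod.intCast_zmod_eq_zero_iff_dvd _ _).1 h4
  · rw [Finsupp.notMem_support_iff.1 hh]
    exact dvd_zero _

end NT2

open NT2 in
theorem t_NT2 : S_NT1 → S_NT2 := by
  intro hNT1 ℓ _ H _ N _ hV ι _ _ g r hr hg hN
  classical
  have hℓ : ℓ.Prime := Fact.out
  -- the coefficients of `g - 1` are divisible by `ℓ`
  have hcoef : ∀ (i j : ι) (h : H), (ℓ : ℤ) ∣ ((g - 1) i j).coeff h := by
    intro i j
    obtain ⟨x, hx⟩ : ∃ x, x = (g - 1) i j := ⟨_, rfl⟩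
    rw [← hx]
    obtain ⟨M, hMn, hMf, hMN, hMk, hMS⟩ := hV.2.2
      (((x.coeff.support ×ˢ x.coeff.support).image (fun p => p.1⁻¹ * p.2)).erase 1)
      (Finset.notMem_erase _ _)
    have hinj : Set.InjOn (QuotientGroup.mk' M) (x.coeff.support : Set H) := by
      intro a ha b hb hab
      by_contra hne
      have h1 : a⁻¹ * b ∈ M := QuotientGroup.eq.1 hab
      refine hMS (a⁻¹ * b) (Finset.mem_erase.2 ⟨fun h2 => hne (inv_mul_eq_one.1 h2), ?_⟩) h1
      exact Finset.mem_image.2 ⟨(a, b), Finset.mem_product.2 ⟨ha, hb⟩, rfl⟩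
    have h1 := hNT1 ℓ H N M hMN hMk ι g r hr hg hN
    have h2 : red ℓ M x = 0 := by
      have h3 : (red ℓ M).mapMatrix (g - 1) = 0 := by
        rw [map_sub, map_one]
        have h4 : (red ℓ M).mapMatrix g = 1 := h1
        rw [h4, sub_self]
      have h5 := congrFun (congrFun h3 i) j
      rw [hx]
      exact h5
    exact dvd_coeff ℓ M x hinj h2
  have hz : g - 1 = 0 := by
    refine NT2.abs ℓ r hr ?_ ?_ (g - 1) (by rw [add_sub_cancel]; exact hg) ?_
    · intro x hx
      ext i j h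
      have h1 : (((ℓ • x) i j).coeff h) = 0 := by rw [hx]; rfl
      have h2 : (((ℓ • x) i j).coeff h) = ℓ • ((x i j).coeff h) := rfl
      rw [h2, nsmul_eq_mul] at h1
      exact (mul_eq_zero.1 h1).resolve_left (by exact_mod_cast hℓ.ne_zero)
    · intro x hx
      ext i j h
      show (x i j).coeff h = 0
      by_contra hne
      obtain ⟨y, hy⟩ := hx ((x i j).coeff h).natAbs
      have h1 : (x i j).coeff h = ℓ ^ ((x i j).coeff h).natAbs • ((y i j).coeff h) := by
        have h2 := congrArg (fun w : Matrix ι ι (MonoidAlgebra ℤ H) => (w i j).coeff h) hy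
        exact h2
      have h3 : ((ℓ ^ ((x i j).coeff h).natAbs : ℕ) : ℤ) ∣ (x i j).coeff h := by
        refine ⟨(y i j).coeff h, ?_⟩
        rw [← nsmul_eq_mul]
        exact h1
      have h4 := Nat.le_of_dvd (Int.natAbs_pos.2 hne) (Int.natCast_dvd.1 h3)
      exact absurd h4 (not_le.2 (Nat.lt_pow_self hℓ.one_lt))
    · refine ⟨fun i j => MonoidAlgebra.ofCoeff (Finsupp.mapRange (fun n : ℤ => n / ℓ)
        (Int.zero_ediv _) ((g - 1) i j).coeff), ?_⟩
      ext i j h
      show ((g - 1) i j).coeff h = ℓ • (((g - 1) i j).coeff h / (ℓ : ℤ))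
      rw [nsmul_eq_mul, Int.mul_ediv_cancel' (hcoef i j h)]
  exact sub_eq_zero.1 hz

end Pool.Agent.H365.TF
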